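import Pool.Agent.N190.An.Main

/-!
# The conjectures D and B for products with varieties without isotropic stable subspaces

Let `W` be a Weil cohomology theory with any coefficient field `K` (for instance `ℚ_ℓ`), on a class
of smooth proper varieties over a field `k` of any characteristic. A symmetry of `W` is a family of
automorphisms of the algebras `H(X)` compatible with products and algebraic classes (for instance
the action of an element of a Galois group). The transcendental cohomology `T(X)` is the orthogonal
complement of the algebraic classes. We consider

* a set `P` of varieties such that every non-zero `K`-subspace of `T(X)` stable under the algebraic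
  correspondences and all symmetries is not isotropic (it pairs non-trivially with itself, by an
  algebraic correspondence), and such that the sign `(-1) ^ i` on `T(X)` is algebraic (for instance
  `T(X)` is even);
* a set `Q` of varieties such that every non-zero `K`-subspace of `T(X)` stable under the algebraic
  correspondences is not isotropic in this sense, and the algebraic correspondences have a
  commutative commutant on `T(X)`;
* any set `𝒴` of varieties.

Then the conjectures `D` and `B` hold for all varieties dominated by products of members of these
three sets if and only if `D` holds for the members of `P` and `Q` and for the products of members of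
`𝒴`.
-/

open Pool.Agent.H914 Pool.Agent.H914.VarClass Pool.Agent.H914.VarClass.Obj
  Pool.Agent.H281R3.HT Pool.Agent.R908 Pool.Agent.N190.An

universe u v

namespace Pool.Agent.Results.MP_f569db_ag.AnisotropicProducts

/-- **The conjectures D and B for products with varieties without isotropic stable subspaces.** -/
theorem result {k : Type u} [Field k] {𝒱 : VarClass k} {ops : CycleOps 𝒱}
    (W : WeilCohomology.{u, v} ops) (P Q 𝒴 : Set 𝒱.Obj)
    (hP : ∀ X ∈ P, SignAlgebraic W X ∧ Anisotropic (Set.univ : Set (Symmetry W)) X)
    (hQ : ∀ X ∈ Q, CommutativeCommutant W X ∧ Anisotropic (∅ : Set (Symmetry W)) X) :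
    ((∀ X ∈ P ∪ Q, HomEqNum W X) ∧ ∀ Y, IsProductOf 𝒴 Y → HomEqNum W Y) ↔
      ∀ Z, IsProductOf (P ∪ Q ∪ 𝒴) Z → ∀ V, Dominates W Z V → HomEqNum W V ∧
        ∀ D, V.IsCyc 1 D → HardLefschetz W V D → LefschetzB W V D :=
  main hP hQ

end Pool.Agent.Results.MP_f569db_ag.AnisotropicProducts
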